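import Pool.Agent.H85.AU.Targets
import Pool.Agent.H83.AT.Fin

/-!
# MP_c9ef16_gt: assembly of the topological half
-/

open CategoryTheory CategoryTheory.Limits TopologicalSpace Topology Set
open Pool.Agent.H96.AL

universe w

namespace Pool.Agent.H85.AU

/-- the abstract finiteness theorem for complexes -/
theorem asm (hG14 : T_G14.{w}) (hC16 : T_C16.{w}) (hCLD : T_CLD.{w}) (X : Type)
    [TopologicalSpace X] [CompactSpace X] [T2Space X] (C : Type 1) [Category.{0} C] [Abelian C]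
    [HasExt.{w} C] [HasDerivedCategory.{1} C] (Z : ℕ → Set X) (hZ : ∀ j, IsClosed (Z j))
    (hm : Monotone Z) (t : TopData.{w} X C hZ hm) (m : ℕ) (hA : ATI m Z) (N : ℕ) (a : ℤ)
    (n : ℕ) : FinIso (fun K : DerivedCategory C =>
    (∀ i, t.Con (N + 1) ((DerivedCategory.homologyFunctor C i).obj K)) ∧
    (∀ i, i < a → IsZero ((DerivedCategory.homologyFunctor C i).obj K)) ∧
    ∀ i, a + n ≤ i → IsZero ((DerivedCategory.homologyFunctor C i).obj K)) := by
  refine hCLD C (t.Con (N + 1)) (t.con_iso (N + 1)) ?_ ?_ (hC16 X C Z hZ hm t m hA (N + 1)) a n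
  · intro A hz
    have h1 : t.Con (N + 1) t.one := t.con_mono 1 (N + 1) (by omega) _ t.con_one
    have h2 := t.con_cut (N + 1) t.one m h1
    refine t.con_iso _ _ _ ⟨IsZero.iso ?_ hz⟩ h2
    have h3 : co hZ m = ⊥ := by
      ext x
      simp [co, hA.top]
    rw [h3]
    exact t.bot t.one
  · intro A B hA' hB n
    exact (hG14 X C Z hZ hm t m hA (N + 1) A B hA' hB).2 n

/-- the topological half -/
theorem topology (hG14 : T_G14.{0}) (hC16 : T_C16.{0}) (hCLD : T_CLD.{0})
    (hT : ∀ (F : Type) [Field F] [Finite F] (X : TopCat.{0}) (m : ℕ) (Z : ℕ → Set X)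
      (hA : ATI m Z), ∃ t : TopData.{0} X (Sh F X) hA.closed hA.mono, ∀ (N : ℕ) (A : Sh F X),
        (∀ j, IsLocalSystem F (restr F A (Z (j + 1) \ Z j)) N) → t.Con N A) : T_Topology := by
  intro F _ _ X _ _ m Z hA N
  obtain ⟨t, ht⟩ := hT F X m Z hA
  obtain ⟨T, hT1, -, hT2⟩ := asm hG14 hC16 hCLD X (Sh F X) Z hA.closed hA.mono t m hA N
    (-(N : ℤ)) (2 * N + 1)
  refine ⟨T, hT1, fun K hK1 hK2 => ?_⟩
  refine hT2 K ⟨fun i => ?_, fun i hi => ?_, fun i hi => ?_⟩
  · exact t.con_mono N (N + 1) (by omega) _ (ht N _ (fun j => hK2 i j))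
  · exact hK1 i (fun h => absurd h.1 (by omega))
  · exact hK1 i (fun h => absurd h.2 (by push_cast at hi; omega))

end Pool.Agent.H85.AU
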