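import Pool.Agent.H85.AU.Defs

/-!
# MP_c9ef16_gt, topological half, part 2: basic facts about extensions by zero
-/

open CategoryTheory CategoryTheory.Limits TopologicalSpace Topology Set

universe w

namespace Pool.Agent.H85.AU

variable {X : Type} [TopologicalSpace X] {C : Type 1} [Category.{0} C] [Abelian C]

namespace CutSys

variable (c : CutSys X C)

instance mono_mp {U V : Opens X} (h : U ≤ V) (A : C) : Mono (c.mp h A) := c.mono h A

instance mono_ep (U : Opens X) (A : C) : Mono (c.ep U A) :=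
  @mono_comp C _ _ _ _ ((c.cut.map (homOfLE (le_top : U ≤ ⊤))).app A) (c.mono _ A)
    (c.top.hom.app A) (inferInstance : Mono (c.top.app A).hom)

@[simp] lemma mp_refl (U : Opens X) (A : C) : c.mp (le_refl U) A = 𝟙 _ := by
  have h : c.cut.map (homOfLE (le_refl U)) = 𝟙 _ := c.cut.map_id U
  show (c.cut.map (homOfLE (le_refl U))).app A = 𝟙 _
  rw [h]
  rfl

@[reassoc (attr := simp)] lemma mp_mp {U V W : Opens X} (h : U ≤ V) (h' : V ≤ W) (A : C) :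
    c.mp h A ≫ c.mp h' A = c.mp (h.trans h') A := by
  show (c.cut.map (homOfLE h)).app A ≫ (c.cut.map (homOfLE h')).app A = _
  rw [← NatTrans.comp_app, ← Functor.map_comp, homOfLE_comp]
  rfl

@[reassoc (attr := simp)] lemma mp_ep {U V : Opens X} (h : U ≤ V) (A : C) :
    c.mp h A ≫ c.ep V A = c.ep U A := by
  show c.mp h A ≫ c.mp le_top A ≫ c.top.hom.app A = c.mp le_top A ≫ c.top.hom.app A
  rw [mp_mp_assoc]

@[reassoc] lemma fm_mp {U V : Opens X} (h : U ≤ V) {A B : C} (f : A ⟶ B) :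
    c.fm U f ≫ c.mp h B = c.mp h A ≫ c.fm V f :=
  (c.cut.map (homOfLE h)).naturality f

@[reassoc] lemma fm_ep (U : Opens X) {A B : C} (f : A ⟶ B) :
    c.fm U f ≫ c.ep U B = c.ep U A ≫ f := by
  show c.fm U f ≫ c.mp le_top B ≫ c.top.hom.app B = (c.mp le_top A ≫ c.top.hom.app A) ≫ f
  rw [fm_mp_assoc, Category.assoc]
  congr 1
  exact c.top.hom.naturality f

@[simp] lemma fm_id (U : Opens X) (A : C) : c.fm U (𝟙 A) = 𝟙 _ := (c.cut.obj U).map_id A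

@[reassoc] lemma fm_comp (U : Opens X) {A B D : C} (f : A ⟶ B) (g : B ⟶ D) :
    c.fm U (f ≫ g) = c.fm U f ≫ c.fm U g := (c.cut.obj U).map_comp f g

/-- `A_U ≅ B_U` from `A ≅ B` -/
def fmi (U : Opens X) {A B : C} (e : A ≅ B) : c.ob U A ≅ c.ob U B := (c.cut.obj U).mapIso e

lemma fm_ep_eq (U : Opens X) (A : C) : c.fm U (c.ep U A) = c.ep U (c.ob U A) := by
  rw [← cancel_mono (c.ep U A)]
  exact c.fm_ep U (c.ep U A)

lemma isIso_fm_ep {U V : Opens X} (h : U ≤ V) (A : C) : IsIso (c.fm U (c.ep V A)) := c.res h A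

lemma isIso_mp_inf (U V : Opens X) (A : C) :
    IsIso (c.mp (inf_le_left : U ⊓ V ≤ U) (c.ob V A)) := c.sup U V A

instance isIso_ep_ob (U : Opens X) (A : C) : IsIso (c.ep U (c.ob U A)) := by
  rw [← fm_ep_eq]
  exact c.isIso_fm_ep (le_refl U) A

/-- `ep_⊤ : A_X → A` is an isomorphism -/
instance isIso_ep_top (A : C) : IsIso (c.ep ⊤ A) := by
  have : c.ep ⊤ A = c.top.hom.app A := by
    show c.mp (le_refl ⊤) A ≫ c.top.hom.app A = _
    rw [mp_refl, Category.id_comp]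
  rw [this]
  exact (inferInstance : IsIso (c.top.app A).hom)

/-- `A_X ≅ A` -/
noncomputable def topI (A : C) : c.ob ⊤ A ≅ A := asIso (c.ep ⊤ A)

lemma isZero_ob {A : C} (hA : IsZero A) (U : Opens X) : IsZero (c.ob U A) := by
  have := c.add U
  exact (c.cut.obj U).map_isZero hA

lemma isZero_ob_of_le {U V : Opens X} (h : U ≤ V) {A : C} (hA : IsZero (c.ob V A)) :
    IsZero (c.ob U A) := by
  rw [IsZero.iff_id_eq_zero, ← cancel_mono (c.mp h A)]
  exact hA.eq_of_tgt _ _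

/-! ### restriction of morphisms `A_V → B_V` to `U ⊆ V` -/

@[reassoc] lemma fm_ep_mp {U V : Opens X} (h : U ≤ V) (A : C) :
    c.fm U (c.ep V A) ≫ c.mp h A = c.ep U (c.ob V A) := by
  rw [← cancel_mono (c.ep V A), Category.assoc, mp_ep, fm_ep]

/-- the restriction of `φ : A_V → B_V` to `U ⊆ V` -/
noncomputable def rsm {U V : Opens X} (h : U ≤ V) {A B : C} (φ : c.ob V A ⟶ c.ob V B) :
    c.ob U A ⟶ c.ob U B :=
  have := c.isIso_fm_ep h A
  inv (c.fm U (c.ep V A)) ≫ c.fm U φ ≫ c.fm U (c.ep V B)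

@[reassoc] lemma rsm_mp {U V : Opens X} (h : U ≤ V) {A B : C} (φ : c.ob V A ⟶ c.ob V B) :
    c.rsm h φ ≫ c.mp h B = c.mp h A ≫ φ := by
  have := c.isIso_fm_ep h A
  unfold rsm
  rw [Category.assoc, Category.assoc, IsIso.inv_comp_eq, fm_ep_mp, fm_ep_mp_assoc, fm_ep]

/-- characterisation of the restriction -/
lemma eq_rsm {U V : Opens X} (h : U ≤ V) {A B : C} (φ : c.ob V A ⟶ c.ob V B)
    (ψ : c.ob U A ⟶ c.ob U B) (e : ψ ≫ c.mp h B = c.mp h A ≫ φ) : ψ = c.rsm h φ := by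
  rw [← cancel_mono (c.mp h B), e, rsm_mp]

@[simp] lemma rsm_id {U V : Opens X} (h : U ≤ V) (A : C) : c.rsm h (𝟙 (c.ob V A)) = 𝟙 _ :=
  (c.eq_rsm h _ _ (by rw [Category.id_comp, Category.comp_id])).symm

@[reassoc] lemma rsm_comp {U V : Opens X} (h : U ≤ V) {A B D : C} (φ : c.ob V A ⟶ c.ob V B)
    (ψ : c.ob V B ⟶ c.ob V D) : c.rsm h (φ ≫ ψ) = c.rsm h φ ≫ c.rsm h ψ :=
  (c.eq_rsm h _ _ (by rw [Category.assoc, rsm_mp, rsm_mp_assoc])).symm

lemma rsm_rsm {U V W : Opens X} (h : U ≤ V) (h' : V ≤ W) {A B : C}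
    (φ : c.ob W A ⟶ c.ob W B) : c.rsm h (c.rsm h' φ) = c.rsm (h.trans h') φ := by
  apply c.eq_rsm
  rw [← mp_mp c h h' B, ← mp_mp c h h' A, Category.assoc, rsm_mp_assoc, rsm_mp]

/-- the restriction of an isomorphism -/
noncomputable def rsi {U V : Opens X} (h : U ≤ V) {A B : C} (e : c.ob V A ≅ c.ob V B) :
    c.ob U A ≅ c.ob U B where
  hom := c.rsm h e.hom
  inv := c.rsm h e.inv
  hom_inv_id := by rw [← rsm_comp, e.hom_inv_id, rsm_id]
  inv_hom_id := by rw [← rsm_comp, e.inv_hom_id, rsm_id]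

/-! ### restriction of Ext classes -/

section Ext

variable [HasExt.{w} C]

lemma rs_apply (A B : C) (n : ℕ) {U V : Opens X} (h : U ≤ V)
    (α : Abelian.Ext.{w} (c.ob V A) B n) :
    CutSys.rs.{w} c A B n h α = (Abelian.Ext.mk₀ (c.mp h A)).comp α (zero_add n) := rfl

@[simp] lemma rs_refl (A B : C) (n : ℕ) (U : Opens X) (α : Abelian.Ext.{w} (c.ob U A) B n) :
    CutSys.rs.{w} c A B n (le_refl U) α = α := by
  rw [rs_apply, mp_refl, Abelian.Ext.mk₀_id_comp]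

lemma rs_rs (A B : C) (n : ℕ) {U V W : Opens X} (h : U ≤ V) (h' : V ≤ W)
    (α : Abelian.Ext.{w} (c.ob W A) B n) :
    CutSys.rs.{w} c A B n h (CutSys.rs.{w} c A B n h' α) =
      CutSys.rs.{w} c A B n (h.trans h') α := by
  rw [rs_apply, rs_apply, rs_apply, Abelian.Ext.mk₀_comp_mk₀_assoc, mp_mp]

/-- naturality of the restriction in `A` (for morphisms `A_V → A'_V`) -/
lemma rs_rsm {A A' : C} (B : C) (n : ℕ) {U V : Opens X} (h : U ≤ V)
    (φ : c.ob V A ⟶ c.ob V A') (α : Abelian.Ext.{w} (c.ob V A') B n) :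
    CutSys.rs.{w} c A B n h ((Abelian.Ext.mk₀ φ).comp α (zero_add n)) =
      (Abelian.Ext.mk₀ (c.rsm h φ)).comp (CutSys.rs.{w} c A' B n h α) (zero_add n) := by
  rw [rs_apply, rs_apply, Abelian.Ext.mk₀_comp_mk₀_assoc, Abelian.Ext.mk₀_comp_mk₀_assoc, rsm_mp]

/-- naturality of the restriction in `A` (for morphisms `A → A'`) -/
lemma rs_fm {A A' : C} (B : C) (n : ℕ) {U V : Opens X} (h : U ≤ V)
    (f : A ⟶ A') (α : Abelian.Ext.{w} (c.ob V A') B n) :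
    CutSys.rs.{w} c A B n h ((Abelian.Ext.mk₀ (c.fm V f)).comp α (zero_add n)) =
      (Abelian.Ext.mk₀ (c.fm U f)).comp (CutSys.rs.{w} c A' B n h α) (zero_add n) := by
  rw [rs_apply, rs_apply, Abelian.Ext.mk₀_comp_mk₀_assoc, Abelian.Ext.mk₀_comp_mk₀_assoc, fm_mp]

/-- finiteness of the range passes to smaller open sets -/
lemma rs_finite_mono (A B : C) (n : ℕ) {U V W W' : Opens X} (h : U ≤ V) (h' : V ≤ W)
    (h'' : W ≤ W') (hf : (Set.range (CutSys.rs.{w} c A B n h')).Finite) :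
    (Set.range (CutSys.rs.{w} c A B n (h.trans (h'.trans h'')))).Finite := by
  refine (hf.image (CutSys.rs.{w} c A B n h)).subset ?_
  rintro _ ⟨α, rfl⟩
  exact ⟨CutSys.rs.{w} c A B n h' (CutSys.rs.{w} c A B n h'' α), ⟨_, rfl⟩, by
    rw [rs_rs, rs_rs]⟩

/-- the isomorphism `Ext^n(A'_U, B) ≃ Ext^n(A_U, B)` induced by `A_U ≅ A'_U` -/
noncomputable def isoExt {U : Opens X} {A A' : C} (e : c.ob U A ≅ c.ob U A') (B : C) (n : ℕ) :
    Abelian.Ext.{w} (c.ob U A') B n ≃ Abelian.Ext.{w} (c.ob U A) B n where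
  toFun α := (Abelian.Ext.mk₀ e.hom).comp α (zero_add n)
  invFun α := (Abelian.Ext.mk₀ e.inv).comp α (zero_add n)
  left_inv α := by
    show (Abelian.Ext.mk₀ e.inv).comp ((Abelian.Ext.mk₀ e.hom).comp α (zero_add n))
      (zero_add n) = α
    rw [Abelian.Ext.mk₀_comp_mk₀_assoc, e.inv_hom_id, Abelian.Ext.mk₀_id_comp]
  right_inv α := by
    show (Abelian.Ext.mk₀ e.hom).comp ((Abelian.Ext.mk₀ e.inv).comp α (zero_add n))
      (zero_add n) = α
    rw [Abelian.Ext.mk₀_comp_mk₀_assoc, e.hom_inv_id, Abelian.Ext.mk₀_id_comp]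

end Ext

end CutSys

end Pool.Agent.H85.AU

namespace Pool.Agent.H85.AU

/-- a homomorphism whose values on the kernel of a homomorphism with finite range lie in a finite
set has finite range -/
lemma finite_range_of_ker {G H M : Type*} [AddCommGroup G] [AddCommGroup H] [AddCommGroup M]
    (φ : G →+ M) (f : G →+ H) (hφ : (Set.range φ).Finite) (S : Set H) (hS : S.Finite)
    (h : ∀ α, φ α = 0 → f α ∈ S) : (Set.range f).Finite := by
  classical
  have hch : ∀ m : M, ∃ g : G, m ∈ Set.range φ → φ g = m := by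
    intro m
    by_cases hm : m ∈ Set.range φ
    · obtain ⟨g, hg⟩ := hm
      exact ⟨g, fun _ => hg⟩
    · exact ⟨0, fun h => absurd h hm⟩
  choose σ hσ using hch
  refine (hφ.biUnion (t := fun m => (fun s => f (σ m) + s) '' S)
    (fun m _ => hS.image _)).subset ?_
  rintro _ ⟨g, rfl⟩
  rw [Set.mem_iUnion₂]
  refine ⟨φ g, ⟨g, rfl⟩, f (g - σ (φ g)), h _ ?_, ?_⟩
  · rw [map_sub, hσ (φ g) ⟨g, rfl⟩, sub_self]
  · show f (σ (φ g)) + f (g - σ (φ g)) = f g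
    rw [map_sub, add_sub_cancel]

/-- shrinking lemma -/
lemma exists_shrink {X : Type} [TopologicalSpace X] [NormalSpace X] {K₁ K₂ : Set X}
    (hK₁ : IsClosed K₁) (hK₂ : IsClosed K₂) (U₁ U₂ V : Opens X) (h₁ : K₁ ⊆ U₁) (h₂ : K₂ ⊆ U₂)
    (hV : K₁ ∩ K₂ ⊆ V) : ∃ W₁ W₂ : Opens X, K₁ ⊆ W₁ ∧ K₂ ⊆ W₂ ∧ W₁ ≤ U₁ ∧ W₂ ≤ U₂ ∧
      W₁ ⊓ W₂ ≤ V := by
  have hd : Disjoint (K₁ \ V) (K₂ \ V) := by
    rw [Set.disjoint_left]
    rintro x ⟨hx, hxV⟩ ⟨hx2, -⟩
    exact hxV (hV ⟨hx, hx2⟩)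
  obtain ⟨G₁, G₂, hG₁, hG₂, hs₁, hs₂, hG⟩ := normal_separation
    (hK₁.sdiff V.isOpen) (hK₂.sdiff V.isOpen) hd
  refine ⟨(⟨G₁, hG₁⟩ ⊔ V) ⊓ U₁, (⟨G₂, hG₂⟩ ⊔ V) ⊓ U₂, ?_, ?_, inf_le_right, inf_le_right, ?_⟩
  · intro x hx
    refine ⟨?_, h₁ hx⟩
    by_cases hxV : x ∈ (V : Set X)
    · exact Or.inr hxV
    · exact Or.inl (hs₁ ⟨hx, hxV⟩)
  · intro x hx
    refine ⟨?_, h₂ hx⟩
    by_cases hxV : x ∈ (V : Set X)
    · exact Or.inr hxV
    · exact Or.inl (hs₂ ⟨hx, hxV⟩)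
  · rintro x ⟨⟨hx1, -⟩, ⟨hx2, -⟩⟩
    rcases hx1 with hx1 | hx1
    · rcases hx2 with hx2 | hx2
      · exact absurd hx2 (Set.disjoint_left.1 hG hx1)
      · exact hx2
    · exact hx1

end Pool.Agent.H85.AU
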