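import Pool.Agent.H85.AU.Targets

/-!
# MP_c9ef16_gt: union lemma for isomorphism classes
-/

open CategoryTheory CategoryTheory.Limits TopologicalSpace Topology Set

universe w

namespace Pool.Agent.H85.AU

/-- finite choice of representatives -/
theorem finite_reps {S D : Type*} [Finite D] (f : S → D) (r : S → S → Prop)
    (h : ∀ a b, f a = f b → r a b) : ∃ T : Set S, T.Finite ∧ ∀ a, ∃ b ∈ T, r a b := by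
  refine ⟨range (fun d : range f => d.2.choose), finite_range _, fun a => ?_⟩
  have h1 : f a ∈ range f := ⟨a, rfl⟩
  exact ⟨_, ⟨⟨f a, h1⟩, rfl⟩, h _ _ h1.choose_spec.symm⟩

section

variable {X : Type} [TopologicalSpace X] {C : Type 1} [Category.{0} C] [Abelian C]
  [HasExt.{w} C] (c : CutSys X C)

/-- the transition function of `A`, given by `a : A_{U₁} ≅ P_{U₁}`, `b : A_{U₂} ≅ Q_{U₂}` -/
noncomputable def tr {A P Q : C} {U₁ U₂ : Opens X} (a : c.ob U₁ A ≅ c.ob U₁ P)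
    (b : c.ob U₂ A ≅ c.ob U₂ Q) : c.ob (U₁ ⊓ U₂) P ⟶ Q :=
  c.rsm inf_le_left a.inv ≫ c.rsm inf_le_right b.hom ≫ c.ep (U₁ ⊓ U₂) Q

lemma mp_tr {A P Q : C} {U₁ U₂ V : Opens X} (hV : V ≤ U₁ ⊓ U₂) (a : c.ob U₁ A ≅ c.ob U₁ P)
    (b : c.ob U₂ A ≅ c.ob U₂ Q) : c.mp hV P ≫ tr c a b =
      c.rsm (hV.trans inf_le_left) a.inv ≫ c.rsm (hV.trans inf_le_right) b.hom ≫ c.ep V Q := by
  unfold tr
  rw [← c.rsm_mp_assoc, c.rsm_rsm, ← c.rsm_mp_assoc, c.rsm_rsm, c.mp_ep]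

lemma step (hG : T_GLU) {A A' P Q : C} {U₁ U₂ V W₁ W₂ : Opens X} (hV : V ≤ U₁ ⊓ U₂)
    (h₁ : W₁ ≤ U₁) (h₂ : W₂ ≤ U₂) (hW : W₁ ⊓ W₂ ≤ V)
    (a : c.ob U₁ A ≅ c.ob U₁ P) (b : c.ob U₂ A ≅ c.ob U₂ Q)
    (a' : c.ob U₁ A' ≅ c.ob U₁ P) (b' : c.ob U₂ A' ≅ c.ob U₂ Q)
    (h : CutSys.rs.{w} c P Q 0 hV (Abelian.Ext.mk₀ (tr c a b)) =
      CutSys.rs.{w} c P Q 0 hV (Abelian.Ext.mk₀ (tr c a' b'))) :
    Nonempty (c.ob (W₁ ⊔ W₂) A ≅ c.ob (W₁ ⊔ W₂) A') := by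
  rw [c.rs_apply, c.rs_apply, Abelian.Ext.mk₀_comp_mk₀, Abelian.Ext.mk₀_comp_mk₀] at h
  have h3 : c.mp hV P ≫ tr c a b = c.mp hV P ≫ tr c a' b' :=
    (Abelian.Ext.mk₀_bijective _ _).1 h
  rw [mp_tr, mp_tr, ← Category.assoc, ← Category.assoc, cancel_mono] at h3
  -- on `W₁ ⊓ W₂`
  have h4 := congrArg (c.rsm hW) h3
  rw [c.rsm_comp, c.rsm_comp, c.rsm_rsm, c.rsm_rsm, c.rsm_rsm, c.rsm_rsm] at h4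
  have g₁ : W₁ ⊓ W₂ ≤ U₁ := inf_le_left.trans h₁
  have g₂ : W₁ ⊓ W₂ ≤ U₂ := inf_le_right.trans h₂
  refine hG X C c A A' W₁ W₂ (c.rsi h₁ (a ≪≫ a'.symm)) (c.rsi h₂ (b ≪≫ b'.symm)) ?_
  show c.rsm inf_le_left (c.rsm h₁ (a.hom ≫ a'.inv)) =
    c.rsm inf_le_right (c.rsm h₂ (b.hom ≫ b'.inv))
  rw [c.rsm_rsm, c.rsm_rsm, c.rsm_comp, c.rsm_comp]
  -- `α = a`, ...
  have e1 : c.rsm g₁ a.hom ≫ c.rsm g₁ a.inv = 𝟙 _ := (c.rsi g₁ a).hom_inv_id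
  have e2 : c.rsm g₂ b'.hom ≫ c.rsm g₂ b'.inv = 𝟙 _ := (c.rsi g₂ b').hom_inv_id
  have h5 : c.rsm g₁ a.inv ≫ c.rsm g₂ b.hom = c.rsm g₁ a'.inv ≫ c.rsm g₂ b'.hom := h4
  calc c.rsm g₁ a.hom ≫ c.rsm g₁ a'.inv
      = c.rsm g₁ a.hom ≫ (c.rsm g₁ a'.inv ≫ c.rsm g₂ b'.hom) ≫ c.rsm g₂ b'.inv := by
        rw [Category.assoc, e2, Category.comp_id]
    _ = (c.rsm g₁ a.hom ≫ c.rsm g₁ a.inv) ≫ c.rsm g₂ b.hom ≫ c.rsm g₂ b'.inv := by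
        rw [← h5]; simp only [Category.assoc]
    _ = c.rsm g₂ b.hom ≫ c.rsm g₂ b'.inv := by rw [e1, Category.id_comp]

end

theorem pf_CLU : T_GLU → T_CLU.{w} := by
  intro hG X _ C _ _ _ c 𝒮 T₁ T₂ hT₁ hT₂ U₁ U₂ V W₁ W₂ hV h₁ h₂ hW H₁ H₂ hfin
  classical
  -- representatives for every pair
  have key : ∀ P ∈ T₁, ∀ Q ∈ T₂, ∃ T : Set C, T.Finite ∧ (∀ P ∈ T, 𝒮 P) ∧ ∀ A, 𝒮 A →
      Nonempty (c.ob U₁ A ≅ c.ob U₁ P) → Nonempty (c.ob U₂ A ≅ c.ob U₂ Q) →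
      ∃ B ∈ T, Nonempty (c.ob (W₁ ⊔ W₂) A ≅ c.ob (W₁ ⊔ W₂) B) := by
    intro P hP Q hQ
    let S := {A : C // 𝒮 A ∧ Nonempty (c.ob U₁ A ≅ c.ob U₁ P) ∧
      Nonempty (c.ob U₂ A ≅ c.ob U₂ Q)}
    have : Finite (range (CutSys.rs.{w} c P Q 0 hV)) := (hfin P hP Q hQ).to_subtype
    obtain ⟨T, hT, hT'⟩ := finite_reps (S := S)
      (fun A => (⟨_, ⟨Abelian.Ext.mk₀ (tr c A.2.2.1.some A.2.2.2.some), rfl⟩⟩ :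
        range (CutSys.rs.{w} c P Q 0 hV)))
      (fun A B => Nonempty (c.ob (W₁ ⊔ W₂) A.1 ≅ c.ob (W₁ ⊔ W₂) B.1))
      (fun A B h => step c hG hV h₁ h₂ hW _ _ _ _ (congrArg Subtype.val h))
    refine ⟨Subtype.val '' T, hT.image _, ?_, fun A h0 hA₁ hA₂ => ?_⟩
    · rintro _ ⟨B, -, rfl⟩
      exact B.2.1
    · obtain ⟨B, hB, e⟩ := hT' ⟨A, h0, hA₁, hA₂⟩
      exact ⟨B.1, ⟨B, hB, rfl⟩, e⟩
  choose! T hT using key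
  refine ⟨⋃ P ∈ T₁, ⋃ Q ∈ T₂, T P Q, ?_, ?_, ?_⟩
  · exact hT₁.biUnion fun P hP => hT₂.biUnion fun Q hQ => (hT P hP Q hQ).1
  · intro B hB
    simp only [mem_iUnion] at hB
    obtain ⟨P, hP, Q, hQ, hB⟩ := hB
    exact (hT P hP Q hQ).2.1 B hB
  · intro A hA
    obtain ⟨P, hP, e₁⟩ := H₁ A hA
    obtain ⟨Q, hQ, e₂⟩ := H₂ A hA
    obtain ⟨B, hB, e⟩ := (hT P hP Q hQ).2.2 A hA e₁ e₂
    refine ⟨B, ?_, e⟩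
    simp only [mem_iUnion]
    exact ⟨P, hP, Q, hQ, hB⟩

end Pool.Agent.H85.AU
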