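import Pool.Agent.H96.AL.Iface

/-!
# MP_c9ef16_gt, topological half, part 2 (T9–T17): abstract interface

`CutSys X C`: extension by zero `A ↦ A_U` in an abelian category `C` (to be instantiated by sheaves
on `X`).  `TopData X Z C`: everything which the finiteness arguments need to know about
constructible sheaves.
-/

open CategoryTheory CategoryTheory.Limits TopologicalSpace Topology Set

universe w

namespace Pool.Agent.H85.AU

/-- the map `A_{U ∩ V} → A_U ⊕ A_V` -/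
noncomputable def mvF {X : Type} [TopologicalSpace X] {C : Type 1} [Category.{0} C] [Abelian C]
    (cut : Opens X ⥤ C ⥤ C) (U V : Opens X) (A : C) :
    (cut.obj (U ⊓ V)).obj A ⟶ (cut.obj U).obj A ⊞ (cut.obj V).obj A :=
  biprod.lift ((cut.map (homOfLE inf_le_left)).app A) (-((cut.map (homOfLE inf_le_right)).app A))

/-- the map `A_U ⊕ A_V → A_{U ∪ V}` -/
noncomputable def mvG {X : Type} [TopologicalSpace X] {C : Type 1} [Category.{0} C] [Abelian C]
    (cut : Opens X ⥤ C ⥤ C) (U V : Opens X) (A : C) :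
    (cut.obj U).obj A ⊞ (cut.obj V).obj A ⟶ (cut.obj (U ⊔ V)).obj A :=
  biprod.desc ((cut.map (homOfLE le_sup_left)).app A) ((cut.map (homOfLE le_sup_right)).app A)

lemma mv_zero {X : Type} [TopologicalSpace X] {C : Type 1} [Category.{0} C] [Abelian C]
    (cut : Opens X ⥤ C ⥤ C) (U V : Opens X) (A : C) : mvF cut U V A ≫ mvG cut U V A = 0 := by
  rw [mvF, mvG, biprod.lift_desc, Preadditive.neg_comp, ← NatTrans.comp_app, ← NatTrans.comp_app,
    ← Functor.map_comp, ← Functor.map_comp, homOfLE_comp, homOfLE_comp, add_neg_cancel]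

/-- Extension by zero: `(cut.obj U).obj A = A_U` -/
structure CutSys (X : Type) [TopologicalSpace X] (C : Type 1) [Category.{0} C] [Abelian C] where
  cut : Opens X ⥤ C ⥤ C
  /-- `A_X ≅ A` -/
  top : cut.obj ⊤ ≅ 𝟭 C
  /-- `A ↦ A_U` is exact -/
  lim : ∀ U, PreservesFiniteLimits (cut.obj U)
  colim : ∀ U, PreservesFiniteColimits (cut.obj U)
  add : ∀ U, (cut.obj U).Additive
  /-- `A_U → A_V` is a monomorphism -/
  mono : ∀ {U V : Opens X} (h : U ≤ V) (A : C), Mono ((cut.map (homOfLE h)).app A)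
  /-- Mayer–Vietoris -/
  mv : ∀ (U V : Opens X) (A : C),
    (ShortComplex.mk (mvF cut U V A) (mvG cut U V A) (mv_zero cut U V A)).ShortExact
  /-- `A_∅ = 0` -/
  bot : ∀ A : C, IsZero ((cut.obj ⊥).obj A)
  /-- `(A_V)_U → A_U` is an isomorphism if `U ⊆ V` -/
  res : ∀ {U V : Opens X}, U ≤ V → ∀ A : C,
    IsIso ((cut.obj U).map ((cut.map (homOfLE (le_top : V ≤ ⊤))).app A ≫ top.hom.app A))
  /-- `(A_V)_{U ∩ V} → (A_V)_U` is an isomorphism -/
  sup : ∀ (U V : Opens X) (A : C),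
    IsIso ((cut.map (homOfLE (inf_le_left : U ⊓ V ≤ U))).app ((cut.obj V).obj A))

section

variable {X : Type} [TopologicalSpace X] {C : Type 1} [Category.{0} C] [Abelian C]

/-- `A_U` -/
def CutSys.ob (c : CutSys X C) (U : Opens X) (A : C) : C := (c.cut.obj U).obj A

/-- `A_U → A_V` for `U ⊆ V` -/
def CutSys.mp (c : CutSys X C) {U V : Opens X} (h : U ≤ V) (A : C) : c.ob U A ⟶ c.ob V A :=
  (c.cut.map (homOfLE h)).app A

/-- `A_U → A` -/
def CutSys.ep (c : CutSys X C) (U : Opens X) (A : C) : c.ob U A ⟶ A :=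
  (c.cut.map (homOfLE (le_top : U ≤ ⊤))).app A ≫ c.top.hom.app A

/-- `f_U : A_U → B_U` -/
def CutSys.fm (c : CutSys X C) (U : Opens X) {A B : C} (f : A ⟶ B) : c.ob U A ⟶ c.ob U B :=
  (c.cut.obj U).map f

/-- restriction `Ext^n(A_V, B) → Ext^n(A_U, B)` for `U ⊆ V` -/
noncomputable def CutSys.rs [HasExt.{w} C] (c : CutSys X C) (A B : C) (n : ℕ) {U V : Opens X}
    (h : U ≤ V) : Abelian.Ext.{w} (c.ob V A) B n →+ Abelian.Ext.{w} (c.ob U A) B n :=
  (Abelian.Ext.mk₀ (c.mp h A)).precomp B (zero_add n)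

/-- the pair `(A, B)` is good at `x` -/
def CutSys.Good [HasExt.{w} C] (c : CutSys X C) (A B : C) (x : X) : Prop :=
  ∀ n : ℕ, ∀ V : Opens X, x ∈ V → ∃ U : Opens X, x ∈ U ∧ ∃ h : U ≤ V,
    (Set.range (CutSys.rs.{w} c A B n h)).Finite

/-- the complement of `Z j` -/
def co {Z : ℕ → Set X} (hZ : ∀ j, IsClosed (Z j)) (j : ℕ) : Opens X := ⟨(Z j)ᶜ, (hZ j).isOpen_compl⟩

lemma co_anti {Z : ℕ → Set X} (hZ : ∀ j, IsClosed (Z j)) (hm : Monotone Z) {i j : ℕ}
    (h : i ≤ j) : co hZ j ≤ co hZ i := fun _ hx hy => hx (hm h hy)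

/-- `A` is concentrated on `Z (j+1) \ Z j` -/
structure CutSys.Conc (c : CutSys X C) {Z : ℕ → Set X} (hZ : ∀ j, IsClosed (Z j)) (j : ℕ)
    (A : C) : Prop where
  iso : IsIso (c.ep (co hZ j) A)
  zero : IsZero (c.ob (co hZ (j + 1)) A)

open ZeroObject in
/-- `Q^r` -/
noncomputable def pw (Q : C) : ℕ → C
  | 0 => 0
  | n + 1 => pw Q n ⊞ Q

/-- `S_j`-part of `A`: the cokernel of `A_{X \ Z (j+1)} → A_{X \ Z j}` -/
noncomputable def CutSys.gr (c : CutSys X C) {Z : ℕ → Set X} (hZ : ∀ j, IsClosed (Z j))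
    (hm : Monotone Z) (j : ℕ) (A : C) : C := cokernel (c.mp (co_anti hZ hm (Nat.le_succ j)) A)

/-- All that the finiteness arguments need to know about constructible sheaves. -/
structure TopData (X : Type) [TopologicalSpace X] (C : Type 1) [Category.{0} C] [Abelian C]
    [HasExt.{w} C] {Z : ℕ → Set X} (hZ : ∀ j, IsClosed (Z j)) (hm : Monotone Z)
    extends CutSys X C where
  /-- the constant sheaf `F` -/
  one : C
  /-- `Con N A`: `A` is constructible of rank at most `N` -/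
  Con : ℕ → C → Prop
  con_iso : ∀ N A B, Nonempty (A ≅ B) → Con N A → Con N B
  con_mono : ∀ N M, N ≤ M → ∀ A, Con N A → Con M A
  con_one : Con 1 one
  con_cut : ∀ N A j, Con N A → Con N (toCutSys.ob (co hZ j) A)
  con_gr : ∀ N A j, Con N A → Con N (toCutSys.gr hZ hm j A)
  /-- local structure near a point of the stratum -/
  con_loc : ∀ N A j, Con N A → toCutSys.Conc hZ j A → ∀ x ∈ Z (j + 1) \ Z j,
    ∃ U : Opens X, x ∈ U ∧ ∃ r ≤ N,
      Nonempty (toCutSys.ob U A ≅ toCutSys.ob U (pw (cokernel (toCutSys.ep (co hZ (j + 1)) one)) r))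
  /-- classes in `Ext^n(F_V, B)` are locally determined by a finite datum -/
  germ : ∀ N B, Con N B → ∀ (n : ℕ) (V : Opens X), ∀ x ∈ V,
    ∃ (M : Type) (_ : AddCommGroup M) (_ : Finite M)
      (φ : Abelian.Ext.{w} (toCutSys.ob V one) B n →+ M), ∀ α, φ α = 0 →
        ∃ O : Opens X, x ∈ O ∧ ∃ h : O ≤ V, CutSys.rs.{w} toCutSys one B n h α = 0
  /-- SH1 -/
  sh1 : ∀ N A B, Con N A → Con N B → ∀ (W W' O : Opens X) (hO : O ≤ W') (hW : W ≤ W')
    (h : X → ℝ → X), Pool.Agent.H96.AL.StrictHtpy Z W W' h → (∀ y ∈ W, h y 1 ∈ O) →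
    ∀ (n : ℕ) (α : Abelian.Ext.{w} (toCutSys.ob W' A) B n),
      CutSys.rs.{w} toCutSys A B n hO α = 0 → CutSys.rs.{w} toCutSys A B n hW α = 0
  /-- SH2 -/
  sh2 : ∀ N A B, Con N A → Con N B → ∀ (W W' O : Opens X), O ≤ W' → W ≤ W' →
    ∀ (h : X → ℝ → X), Pool.Agent.H96.AL.StrictHtpy Z W W' h → (∀ y ∈ W, h y 1 ∈ O) →
    Nonempty (toCutSys.ob O A ≅ toCutSys.ob O B) → Nonempty (toCutSys.ob W A ≅ toCutSys.ob W B)

end

end Pool.Agent.H85.AU
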