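import Pool.Agent.H85.AU.Targets

/-!
# MP_c9ef16_gt: goodness is local
-/

open CategoryTheory CategoryTheory.Limits TopologicalSpace Topology Set

universe w

namespace Pool.Agent.H85.AU

theorem pf_GLC : T_GLC.{w} := by
  rintro X _ C _ _ _ c A A' B x U hx ⟨e⟩ hg n V hV
  obtain ⟨W, hW, h, hf⟩ := hg n (V ⊓ U) ⟨hV, hx⟩
  have hWV : W ≤ V := h.trans inf_le_left
  refine ⟨W, hW, hWV, ?_⟩
  have key : (range (CutSys.rs.{w} c A B n h)).Finite := by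
    let e₁ : c.ob (V ⊓ U) A ≅ c.ob (V ⊓ U) A' := c.rsi inf_le_right e
    refine (hf.image (fun β => (Abelian.Ext.mk₀ (c.rsm h e₁.hom)).comp β (zero_add n))).subset ?_
    rintro _ ⟨α, rfl⟩
    refine ⟨_, ⟨(Abelian.Ext.mk₀ e₁.inv).comp α (zero_add n), rfl⟩, ?_⟩
    show (Abelian.Ext.mk₀ (c.rsm h e₁.hom)).comp
      (CutSys.rs.{w} c A' B n h ((Abelian.Ext.mk₀ e₁.inv).comp α (zero_add n))) (zero_add n) = _
    rw [← c.rs_rsm B n h e₁.hom, Abelian.Ext.mk₀_comp_mk₀_assoc, e₁.hom_inv_id,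
      Abelian.Ext.mk₀_id_comp]
  exact c.rs_finite_mono A B n (le_refl W) h inf_le_left key

end Pool.Agent.H85.AU
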