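import Pool.Agent.H85.AU.Targets

/-!
# MP_c9ef16_gt: gluing of isomorphisms
-/

open CategoryTheory CategoryTheory.Limits TopologicalSpace Topology Set

namespace Pool.Agent.H85.AU

/-- isomorphic first maps give isomorphic quotients -/
theorem iso_X₃ {C : Type 1} [Category.{0} C] [Abelian C] {S S' : ShortComplex C}
    (hS : S.ShortExact) (hS' : S'.ShortExact) (e₁ : S.X₁ ≅ S'.X₁) (e₂ : S.X₂ ≅ S'.X₂)
    (h : S.f ≫ e₂.hom = e₁.hom ≫ S'.f) : Nonempty (S.X₃ ≅ S'.X₃) := by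
  have i₁ : S.X₃ ≅ cokernel S.f :=
    hS.gIsCokernel.coconePointUniqueUpToIso (colimit.isColimit _)
  have i₂ : S'.X₃ ≅ cokernel S'.f :=
    hS'.gIsCokernel.coconePointUniqueUpToIso (colimit.isColimit _)
  exact ⟨i₁ ≪≫ cokernel.mapIso S.f S'.f e₁ e₂ h ≪≫ i₂.symm⟩

theorem lift_map {C : Type 1} [Category.{0} C] [Abelian C] {P A₁ A₂ P' A₁' A₂' : C}
    (f₁ : P ⟶ A₁) (f₂ : P ⟶ A₂) (f₁' : P' ⟶ A₁') (f₂' : P' ⟶ A₂') (e : P ⟶ P') (a : A₁ ⟶ A₁')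
    (b : A₂ ⟶ A₂') (h₁ : f₁ ≫ a = e ≫ f₁') (h₂ : f₂ ≫ b = e ≫ f₂') :
    biprod.lift f₁ (-f₂) ≫ biprod.map a b = e ≫ biprod.lift f₁' (-f₂') := by
  apply biprod.hom_ext
  · rw [Category.assoc, Category.assoc, biprod.map_fst, biprod.lift_fst_assoc,
      biprod.lift_fst, h₁]
  · rw [Category.assoc, Category.assoc, biprod.map_snd, biprod.lift_snd_assoc,
      biprod.lift_snd, Preadditive.neg_comp, Preadditive.comp_neg, h₂]

theorem pf_GLU : T_GLU := by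
  intro X _ C _ _ c A A' W₁ W₂ a b hab
  have h1 : c.rsm (inf_le_left : W₁ ⊓ W₂ ≤ W₁) a.hom ≫ c.mp inf_le_left A' =
      c.mp inf_le_left A ≫ a.hom := c.rsm_mp _ _
  have h2 : c.rsm (inf_le_right : W₁ ⊓ W₂ ≤ W₂) b.hom ≫ c.mp inf_le_right A' =
      c.mp inf_le_right A ≫ b.hom := c.rsm_mp _ _
  rw [← hab] at h2
  exact iso_X₃ (c.mv W₁ W₂ A) (c.mv W₁ W₂ A') (c.rsi inf_le_left a) (biprod.mapIso a b)
    (lift_map (c.mp inf_le_left A) (c.mp inf_le_right A) (c.mp inf_le_left A')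
      (c.mp inf_le_right A') (c.rsm inf_le_left a.hom) a.hom b.hom h1.symm h2.symm)

end Pool.Agent.H85.AU
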