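import Pool.Agent.H85.AU.Targets

/-!
# MP_c9ef16_gt: the graded pieces are concentrated on the strata
-/

open CategoryTheory CategoryTheory.Limits TopologicalSpace Topology Set

namespace Pool.Agent.H85.AU

section

variable {X : Type} [TopologicalSpace X] {C : Type 1} [Category.{0} C] [Abelian C]
  (c : CutSys X C)

lemma isIso_mp_of_le {U V : Opens X} (h : U ≤ V) (h' : V ≤ U) (A : C) : IsIso (c.mp h A) :=
  ⟨c.mp h' A, by rw [c.mp_mp, c.mp_refl], by rw [c.mp_mp, c.mp_refl]⟩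

lemma isIso_ep_ob_of_le {U V : Opens X} (h : U ≤ V) (A : C) : IsIso (c.ep V (c.ob U A)) := by
  have h1 := c.isIso_mp_inf V U A
  have h2 : IsIso (c.mp (inf_le_right : V ⊓ U ≤ U) (c.ob U A)) :=
    isIso_mp_of_le c _ (le_inf h le_rfl) _
  have h3 : c.mp (inf_le_left : V ⊓ U ≤ V) (c.ob U A) ≫ c.ep V (c.ob U A) =
      c.mp (inf_le_right : V ⊓ U ≤ U) (c.ob U A) ≫ c.ep U (c.ob U A) := by
    rw [c.mp_ep, c.mp_ep]
  have h4 : IsIso (c.mp (inf_le_left : V ⊓ U ≤ V) (c.ob U A) ≫ c.ep V (c.ob U A)) := by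
    rw [h3]; infer_instance
  exact IsIso.of_isIso_comp_left (c.mp (inf_le_left : V ⊓ U ≤ V) (c.ob U A)) _

lemma fm_zero (U : Opens X) (A B : C) : c.fm U (0 : A ⟶ B) = 0 := by
  have := c.add U
  exact (c.cut.obj U).map_zero _ _

instance epi_fm (U : Opens X) {A B : C} (f : A ⟶ B) [Epi f] : Epi (c.fm U f) := by
  have := c.colim U
  exact (inferInstance : Epi ((c.cut.obj U).map f))

end

theorem pf_GRC : T_GRC := by
  intro X _ C _ _ c Z hZ hm j A
  have hle : co hZ (j + 1) ≤ co hZ j := co_anti hZ hm (Nat.le_succ j)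
  set P := co hZ j
  set P' := co hZ (j + 1)
  have hgr : c.gr hZ hm j A = cokernel (c.mp hle A) := rfl
  rw [hgr]
  have e1 : IsIso (c.ep P (c.ob P A)) := c.isIso_ep_ob P A
  have e2 : IsIso (c.ep P (c.ob P' A)) := isIso_ep_ob_of_le c hle A
  refine ⟨⟨?_, ?_⟩, ShortComplex.mk (c.mp hle A) (cokernel.π _) (cokernel.condition _), ?_,
    rfl, rfl, rfl⟩
  · -- `(gr)_P → gr` is an isomorphism
    have hc : c.mp hle A ≫ inv (c.ep P (c.ob P A)) ≫ c.fm P (cokernel.π (c.mp hle A)) = 0 := by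
      have h1 : c.mp hle A ≫ inv (c.ep P (c.ob P A)) =
          inv (c.ep P (c.ob P' A)) ≫ c.fm P (c.mp hle A) := by
        rw [IsIso.comp_inv_eq, Category.assoc, IsIso.eq_inv_comp, c.fm_ep]
      rw [← Category.assoc, h1, Category.assoc, ← c.fm_comp, cokernel.condition, fm_zero,
        comp_zero]
    refine ⟨cokernel.desc (c.mp hle A)
      (inv (c.ep P (c.ob P A)) ≫ c.fm P (cokernel.π (c.mp hle A))) hc, ?_, ?_⟩
    · rw [← cancel_epi (c.fm P (cokernel.π (c.mp hle A))), c.fm_ep_assoc, cokernel.π_desc,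
        IsIso.hom_inv_id_assoc, Category.comp_id]
    · rw [← cancel_epi (cokernel.π (c.mp hle A)), cokernel.π_desc_assoc, Category.assoc,
        c.fm_ep, IsIso.inv_hom_id_assoc, Category.comp_id]
  · -- `(gr)_{P'} = 0`
    have h1 : IsIso (c.fm P' (c.ep P A)) := c.isIso_fm_ep hle A
    have h2 : IsIso (c.fm P' (c.ep P' A)) := c.isIso_fm_ep le_rfl A
    have h3 : c.fm P' (c.mp hle A) ≫ c.fm P' (c.ep P A) = c.fm P' (c.ep P' A) := by
      rw [← c.fm_comp, c.mp_ep]
    have h4 : IsIso (c.fm P' (c.mp hle A) ≫ c.fm P' (c.ep P A)) := by rw [h3]; exact h2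
    have h5 : IsIso (c.fm P' (c.mp hle A)) :=
      IsIso.of_isIso_comp_right _ (c.fm P' (c.ep P A))
    have h6 : c.fm P' (cokernel.π (c.mp hle A)) = 0 := by
      rw [← cancel_epi (c.fm P' (c.mp hle A)), ← c.fm_comp, cokernel.condition, fm_zero,
        comp_zero]
    exact IsZero.of_epi_eq_zero _ h6
  · exact { exact := ShortComplex.exact_cokernel _
            mono_f := c.mono_mp hle A
            epi_g := inferInstanceAs (Epi (cokernel.π _)) }

end Pool.Agent.H85.AU
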