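import Pool.Agent.H85.AU.Targets

/-!
# MP_c9ef16_gt, topological half, part 2: goodness of an extension (module MDA)
-/

open CategoryTheory CategoryTheory.Limits TopologicalSpace Topology Set

universe w

namespace Pool.Agent.H85.AU

section

variable {X : Type} [TopologicalSpace X] {C : Type 1} [Category.{0} C] [Abelian C]

lemma mda_zero (c : CutSys X C) (S : ShortComplex C) (U : Opens X) :
    c.fm U S.f ≫ c.fm U S.g = 0 := by
  have := c.add U
  rw [← CutSys.fm_comp, S.zero]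
  exact (c.cut.obj U).map_zero _ _

/-- the short complex `(X₁)_U → (X₂)_U → (X₃)_U` -/
noncomputable def mdaS (c : CutSys X C) (S : ShortComplex C) (U : Opens X) : ShortComplex C :=
  ShortComplex.mk (c.fm U S.f) (c.fm U S.g) (mda_zero c S U)

lemma mdaS_exact (c : CutSys X C) (S : ShortComplex C) (hS : S.ShortExact) (U : Opens X) :
    (mdaS c S U).ShortExact := by
  have := c.lim U
  have := c.colim U
  have := c.add U
  exact hS.map_of_exact (c.cut.obj U)

end

theorem pf_MDA : T_MDA.{w} := by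
  intro X _ C _ _ _ c S hS B x h1 h3 n V hV
  obtain ⟨U1, hx1, hU1, hf1⟩ := h1 n V hV
  obtain ⟨U2, hx2, hU2, hf2⟩ := h3 n U1 hx1
  refine ⟨U2, hx2, hU2.trans hU1, ?_⟩
  refine finite_range_of_ker
    ((CutSys.rs.{w} c S.X₁ B n hU1).comp
      ((Abelian.Ext.mk₀ (c.fm V S.f)).precomp B (zero_add n)))
    (CutSys.rs.{w} c S.X₂ B n (hU2.trans hU1)) ?_
    ((fun β => (Abelian.Ext.mk₀ (c.fm U2 S.g)).comp β (zero_add n)) ''
      range (CutSys.rs.{w} c S.X₃ B n hU2)) (hf2.image _) ?_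
  · refine hf1.subset ?_
    rintro _ ⟨α, rfl⟩
    exact ⟨_, rfl⟩
  · intro α hα
    have h0 : (Abelian.Ext.mk₀ (c.fm U1 S.f)).comp (CutSys.rs.{w} c S.X₂ B n hU1 α)
        (zero_add n) = 0 := by
      rw [← CutSys.rs_fm]
      exact hα
    obtain ⟨b, hb⟩ := Abelian.Ext.contravariant_sequence_exact₂ (mdaS_exact c S hS U1) B
      (CutSys.rs.{w} c S.X₂ B n hU1 α) h0
    refine ⟨CutSys.rs.{w} c S.X₃ B n hU2 b, ⟨b, rfl⟩, ?_⟩
    show (Abelian.Ext.mk₀ (c.fm U2 S.g)).comp (CutSys.rs.{w} c S.X₃ B n hU2 b) (zero_add n) = _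
    rw [← CutSys.rs_fm, ← CutSys.rs_rs c S.X₂ B n hU2 hU1 α, ← hb]
    rfl

end Pool.Agent.H85.AU
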