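import Pool.Agent.H85.AU.Asm
import Pool.Agent.H85.AU.CLU
import Pool.Agent.H85.AU.MDA
import Pool.Agent.H21.AU.C15
import Pool.Agent.H74.AU.C16
import Pool.Agent.H4.AU.CLC
import Pool.Agent.H4.AU.CLD
import Pool.Agent.H12.AU.CUT
import Pool.Agent.H69.AU.EXT
import Pool.Agent.H20.AU.PSH
import Pool.Agent.H33.AU.G12
import Pool.Agent.H74.AU.G13
import Pool.Agent.H20.AU.G14
import Pool.Agent.H62.AU.GLC
import Pool.Agent.H62.AU.GLU
import Pool.Agent.H62.AU.GRC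
import Pool.Agent.H69.AU.HM0
import Pool.Agent.H39.AU.HOM
import Pool.Agent.H69.AU.L15
import Pool.Agent.H74.AU.M15
import Pool.Agent.H12.AU.MDB
import Pool.Agent.H16.AU.PWR
import Pool.Agent.H4.AU.TRI
import Pool.Agent.H42.AU.UNI
import Pool.Agent.H42.AU.WIL
import Pool.Agent.H4.AU.X16

/-!
# MP_c9ef16_gt: the topological half, from `TopData`
-/

open CategoryTheory CategoryTheory.Limits TopologicalSpace Topology Set
open Pool.Agent.H96.AL

universe w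

namespace Pool.Agent.H85.AU

theorem wil : T_WIL.{w} := Pool.Agent.H42.AU.pf_WIL Pool.Agent.H42.AU.pf_UNI

theorem psh : T_PSH.{w} := Pool.Agent.H20.AU.pf_PSH wil

theorem g11 : T_G11.{w} := Pool.Agent.H20.AU.pf_G11

theorem cut' : T_CUT.{w} := Pool.Agent.H12.AU.pf_CUT

theorem glc : T_GLC.{w} := Pool.Agent.H62.AU.pf_GLC

theorem g12 : T_G12.{w} := Pool.Agent.H33.AU.pf_G12 cut' psh glc g11

theorem g13 : T_G13.{w} := Pool.Agent.H74.AU.pf_G13 cut' psh glc g11 g12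
  Pool.Agent.H12.AU.pf_MDB (Pool.Agent.H16.AU.pwr pf_MDA)

theorem g14 : T_G14.{w} := Pool.Agent.H20.AU.pf_G14 g13 Pool.Agent.H62.AU.pf_GRC pf_MDA glc wil

theorem clc : T_CLC.{w} := Pool.Agent.H4.AU.pf_CLC (pf_CLU Pool.Agent.H62.AU.pf_GLU) wil

theorem c15 : T_C15.{w} := Pool.Agent.H21.AU.pf_C15 clc g13 Pool.Agent.H69.AU.pf_L15
  (Pool.Agent.H74.AU.pf_M15 clc g13)

theorem c16 : T_C16.{w} := Pool.Agent.H74.AU.pf_C16
  (Pool.Agent.H4.AU.pf_X16 Pool.Agent.H69.AU.pf_EXT) c15 g14 Pool.Agent.H62.AU.pf_GRC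

theorem cld : T_CLD.{w} := Pool.Agent.H4.AU.pf_CLD Pool.Agent.H4.AU.pf_TRI
  (Pool.Agent.H39.AU.hom Pool.Agent.H4.AU.pf_TRI Pool.Agent.H69.AU.pf_HM0)

/-- the topological half, from the construction of `TopData` -/
theorem topology' (hT : ∀ (F : Type) [Field F] [Finite F] (X : TopCat.{0}) (m : ℕ)
    (Z : ℕ → Set X) (hA : ATI m Z), ∃ t : TopData.{0} X (Sh F X) hA.closed hA.mono,
      ∀ (N : ℕ) (A : Sh F X),
        (∀ j, IsLocalSystem F (restr F A (Z (j + 1) \ Z j)) N) → t.Con N A) : T_Topology :=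
  topology g14 c16 cld hT

end Pool.Agent.H85.AU
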