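import Pool.Agent.H85.AU.Basic

/-!
# MP_c9ef16_gt, topological half, part 2: targets
-/

open CategoryTheory CategoryTheory.Limits TopologicalSpace Topology Set
open Pool.Agent.H96.AL

universe w v u

namespace Pool.Agent.H85.AU

/-! ### Wilder's argument -/

/-- UNI: the union lemma -/
def T_UNI : Prop := ∀ (X : Type) [TopologicalSpace X] (C : Type 1) [Category.{0} C] [Abelian C]
  [HasExt.{w} C] (c : CutSys X C) (A B : C) (n : ℕ) (U₁ U₂ O V W₁ W₂ : Opens X)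
  (h₁ : U₁ ≤ O) (h₂ : U₂ ≤ O) (hV : V ≤ U₁ ⊓ U₂), W₁ ≤ U₁ → W₂ ≤ U₂ → W₁ ⊓ W₂ ≤ V →
  (range (CutSys.rs.{w} c A B n h₁)).Finite → (range (CutSys.rs.{w} c A B n h₂)).Finite →
  (∀ m, m + 1 = n → (range (CutSys.rs.{w} c A B m hV)).Finite) →
  ∀ hW : W₁ ⊔ W₂ ≤ O, (range (CutSys.rs.{w} c A B n hW)).Finite

/-- WIL: Wilder's theorem -/
def T_WIL : Prop := ∀ (X : Type) [TopologicalSpace X] [CompactSpace X] [T2Space X]
  (C : Type 1) [Category.{0} C] [Abelian C] [HasExt.{w} C] (c : CutSys X C) (A B : C)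
  (O : Opens X), (∀ x ∈ O, CutSys.Good.{w} c A B x) → ∀ K : Set X, IsCompact K → K ⊆ O →
  ∀ n : ℕ, ∃ U : Opens X, K ⊆ U ∧ ∃ h : U ≤ O, (range (CutSys.rs.{w} c A B n h)).Finite

/-- MDA: goodness of an extension -/
def T_MDA : Prop := ∀ (X : Type) [TopologicalSpace X] (C : Type 1) [Category.{0} C] [Abelian C]
  [HasExt.{w} C] (c : CutSys X C) (S : ShortComplex C), S.ShortExact → ∀ (B : C) (x : X),
  CutSys.Good.{w} c S.X₁ B x → CutSys.Good.{w} c S.X₃ B x → CutSys.Good.{w} c S.X₂ B x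

/-- MDB: goodness of a quotient -/
def T_MDB : Prop := ∀ (X : Type) [TopologicalSpace X] (C : Type 1) [Category.{0} C] [Abelian C]
  [HasExt.{w} C] (c : CutSys X C) (S : ShortComplex C), S.ShortExact → ∀ (B : C) (x : X),
  CutSys.Good.{w} c S.X₁ B x → CutSys.Good.{w} c S.X₂ B x → CutSys.Good.{w} c S.X₃ B x

/-- GLC: goodness is local -/
def T_GLC : Prop := ∀ (X : Type) [TopologicalSpace X] (C : Type 1) [Category.{0} C] [Abelian C]
  [HasExt.{w} C] (c : CutSys X C) (A A' B : C) (x : X) (U : Opens X), x ∈ U →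
  Nonempty (c.ob U A ≅ c.ob U A') → CutSys.Good.{w} c A' B x → CutSys.Good.{w} c A B x

/-- CUT: restriction for `A_P` -/
def T_CUT : Prop := ∀ (X : Type) [TopologicalSpace X] (C : Type 1) [Category.{0} C] [Abelian C]
  [HasExt.{w} C] (c : CutSys X C) (A B : C) (n : ℕ) (P U V : Opens X) (h : U ≤ V)
  (h' : U ⊓ P ≤ V ⊓ P), (range (CutSys.rs.{w} c A B n h')).Finite →
  (range (CutSys.rs.{w} c (c.ob P A) B n h)).Finite

/-- PWR: goodness of `Q^r` -/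
def T_PWR : Prop := ∀ (X : Type) [TopologicalSpace X] (C : Type 1) [Category.{0} C] [Abelian C]
  [HasExt.{w} C] (c : CutSys X C) (Q B : C) (x : X), CutSys.Good.{w} c Q B x → ∀ r : ℕ,
  CutSys.Good.{w} c (pw Q r) B x

/-! ### Finiteness of Ext of constructible objects -/

/-- PSH: consequence of `ATI.push` -/
def T_PSH : Prop := ∀ (X : Type) [TopologicalSpace X] [CompactSpace X] [T2Space X]
  (C : Type 1) [Category.{0} C] [Abelian C] [HasExt.{w} C] (Z : ℕ → Set X)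
  (hZ : ∀ j, IsClosed (Z j)) (hm : Monotone Z) (t : TopData.{w} X C hZ hm) (m : ℕ), ATI m Z →
  ∀ (N : ℕ) (A B : C), t.Con N A → t.Con N B → ∀ j, ∀ x ∈ Z j,
  (∀ y, y ∉ Z j → CutSys.Good.{w} t.toCutSys A B y) → ∀ (n : ℕ) (V : Opens X), x ∈ V →
  ∃ U : Opens X, x ∈ U ∧ U ≤ V ∧ ∃ h : U ⊓ co hZ j ≤ V ⊓ co hZ j,
    (range (CutSys.rs.{w} t.toCutSys A B n h)).Finite

/-- G11: the constant sheaf -/
def T_G11 : Prop := ∀ (X : Type) [TopologicalSpace X] [CompactSpace X] [T2Space X]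
  (C : Type 1) [Category.{0} C] [Abelian C] [HasExt.{w} C] (Z : ℕ → Set X)
  (hZ : ∀ j, IsClosed (Z j)) (hm : Monotone Z) (t : TopData.{w} X C hZ hm) (m : ℕ), ATI m Z →
  ∀ (N : ℕ) (B : C), t.Con N B → ∀ x, CutSys.Good.{w} t.toCutSys t.one B x

/-- G12: `F_{X \ Z j}` -/
def T_G12 : Prop := ∀ (X : Type) [TopologicalSpace X] [CompactSpace X] [T2Space X]
  (C : Type 1) [Category.{0} C] [Abelian C] [HasExt.{w} C] (Z : ℕ → Set X)
  (hZ : ∀ j, IsClosed (Z j)) (hm : Monotone Z) (t : TopData.{w} X C hZ hm) (m : ℕ), ATI m Z →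
  ∀ (N : ℕ) (B : C), t.Con N B → ∀ j x,
  CutSys.Good.{w} t.toCutSys (t.ob (co hZ j) t.one) B x

/-- G13: constructible objects concentrated on a stratum -/
def T_G13 : Prop := ∀ (X : Type) [TopologicalSpace X] [CompactSpace X] [T2Space X]
  (C : Type 1) [Category.{0} C] [Abelian C] [HasExt.{w} C] (Z : ℕ → Set X)
  (hZ : ∀ j, IsClosed (Z j)) (hm : Monotone Z) (t : TopData.{w} X C hZ hm) (m : ℕ), ATI m Z →
  ∀ (N : ℕ) (A B : C), t.Con N A → t.Con N B → ∀ j, t.Conc hZ j A → ∀ x,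
  CutSys.Good.{w} t.toCutSys A B x

/-- GRC: the graded pieces are concentrated on the strata -/
def T_GRC : Prop := ∀ (X : Type) [TopologicalSpace X] (C : Type 1) [Category.{0} C] [Abelian C]
  (c : CutSys X C) (Z : ℕ → Set X) (hZ : ∀ j, IsClosed (Z j)) (hm : Monotone Z) (j : ℕ) (A : C),
  c.Conc hZ j (c.gr hZ hm j A) ∧ ∃ S : ShortComplex C, S.ShortExact ∧
    S.X₁ = c.ob (co hZ (j + 1)) A ∧ S.X₂ = c.ob (co hZ j) A ∧ S.X₃ = c.gr hZ hm j A

/-- G14: all constructible objects -/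
def T_G14 : Prop := ∀ (X : Type) [TopologicalSpace X] [CompactSpace X] [T2Space X]
  (C : Type 1) [Category.{0} C] [Abelian C] [HasExt.{w} C] (Z : ℕ → Set X)
  (hZ : ∀ j, IsClosed (Z j)) (hm : Monotone Z) (t : TopData.{w} X C hZ hm) (m : ℕ), ATI m Z →
  ∀ (N : ℕ) (A B : C), t.Con N A → t.Con N B →
  (∀ x, CutSys.Good.{w} t.toCutSys A B x) ∧ ∀ n, Finite (Abelian.Ext.{w} A B n)

/-! ### Finiteness of the number of isomorphism classes -/

/-- finitely many isomorphism classes of `A_U`, `A` in the class `𝒮` -/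
def CutSys.FinCl {X : Type} [TopologicalSpace X] {C : Type 1} [Category.{0} C] [Abelian C]
    (c : CutSys X C) (𝒮 : C → Prop) (U : Opens X) : Prop :=
  ∃ T : Set C, T.Finite ∧ (∀ P ∈ T, 𝒮 P) ∧ ∀ A, 𝒮 A → ∃ P ∈ T, Nonempty (c.ob U A ≅ c.ob U P)

/-- finitely many isomorphism classes -/
def FinIso {C : Type u} [Category.{v} C] (𝒮 : C → Prop) : Prop :=
  ∃ T : Set C, T.Finite ∧ (∀ P ∈ T, 𝒮 P) ∧ ∀ A, 𝒮 A → ∃ P ∈ T, Nonempty (A ≅ P)

/-- GLU: gluing of isomorphisms -/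
def T_GLU : Prop := ∀ (X : Type) [TopologicalSpace X] (C : Type 1) [Category.{0} C] [Abelian C]
  (c : CutSys X C) (A A' : C) (W₁ W₂ : Opens X) (a : c.ob W₁ A ≅ c.ob W₁ A')
  (b : c.ob W₂ A ≅ c.ob W₂ A'),
  c.rsm (inf_le_left : W₁ ⊓ W₂ ≤ W₁) a.hom = c.rsm (inf_le_right : W₁ ⊓ W₂ ≤ W₂) b.hom →
  Nonempty (c.ob (W₁ ⊔ W₂) A ≅ c.ob (W₁ ⊔ W₂) A')

/-- CLU: the union lemma for isomorphism classes -/
def T_CLU : Prop := ∀ (X : Type) [TopologicalSpace X] (C : Type 1) [Category.{0} C] [Abelian C]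
  [HasExt.{w} C] (c : CutSys X C) (𝒮 : C → Prop) (T₁ T₂ : Set C), T₁.Finite → T₂.Finite →
  ∀ (U₁ U₂ V W₁ W₂ : Opens X) (hV : V ≤ U₁ ⊓ U₂), W₁ ≤ U₁ → W₂ ≤ U₂ → W₁ ⊓ W₂ ≤ V →
  (∀ A, 𝒮 A → ∃ P ∈ T₁, Nonempty (c.ob U₁ A ≅ c.ob U₁ P)) →
  (∀ A, 𝒮 A → ∃ P ∈ T₂, Nonempty (c.ob U₂ A ≅ c.ob U₂ P)) →
  (∀ P ∈ T₁, ∀ Q ∈ T₂, (range (CutSys.rs.{w} c P Q 0 hV)).Finite) → c.FinCl 𝒮 (W₁ ⊔ W₂)

/-- CLC: compactness for isomorphism classes -/
def T_CLC : Prop := ∀ (X : Type) [TopologicalSpace X] [CompactSpace X] [T2Space X]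
  (C : Type 1) [Category.{0} C] [Abelian C] [HasExt.{w} C] (c : CutSys X C) (𝒮 : C → Prop)
  (O : Opens X), (∀ A B, 𝒮 A → 𝒮 B → ∀ x ∈ O, CutSys.Good.{w} c A B x) →
  (∀ x ∈ O, ∃ U : Opens X, x ∈ U ∧ c.FinCl 𝒮 U) → ∀ K : Set X, IsCompact K → K ⊆ O →
  ∃ U : Opens X, K ⊆ U ∧ U ≤ O ∧ c.FinCl 𝒮 U

/-- L15: near a point of the stratum -/
def T_L15 : Prop := ∀ (X : Type) [TopologicalSpace X] [CompactSpace X] [T2Space X]
  (C : Type 1) [Category.{0} C] [Abelian C] [HasExt.{w} C] (Z : ℕ → Set X)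
  (hZ : ∀ j, IsClosed (Z j)) (hm : Monotone Z) (t : TopData.{w} X C hZ hm) (m : ℕ), ATI m Z →
  ∀ (N j : ℕ), ∀ x ∈ Z (j + 1) \ Z j, ∃ U : Opens X, x ∈ U ∧
    t.toCutSys.FinCl (fun A => t.Con N A ∧ t.Conc hZ j A) U

/-- M15: near a point of `Z j` -/
def T_M15 : Prop := ∀ (X : Type) [TopologicalSpace X] [CompactSpace X] [T2Space X]
  (C : Type 1) [Category.{0} C] [Abelian C] [HasExt.{w} C] (Z : ℕ → Set X)
  (hZ : ∀ j, IsClosed (Z j)) (hm : Monotone Z) (t : TopData.{w} X C hZ hm) (m : ℕ), ATI m Z →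
  ∀ (N j : ℕ), (∀ y, y ∉ Z j → ∃ U : Opens X, y ∈ U ∧
    t.toCutSys.FinCl (fun A => t.Con N A ∧ t.Conc hZ j A) U) → ∀ x ∈ Z j,
  ∃ U : Opens X, x ∈ U ∧ t.toCutSys.FinCl (fun A => t.Con N A ∧ t.Conc hZ j A) U

/-- C15: constructible objects of rank `≤ N` concentrated on a stratum -/
def T_C15 : Prop := ∀ (X : Type) [TopologicalSpace X] [CompactSpace X] [T2Space X]
  (C : Type 1) [Category.{0} C] [Abelian C] [HasExt.{w} C] (Z : ℕ → Set X)
  (hZ : ∀ j, IsClosed (Z j)) (hm : Monotone Z) (t : TopData.{w} X C hZ hm) (m : ℕ), ATI m Z →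
  ∀ (N j : ℕ), FinIso (fun A => t.Con N A ∧ t.Conc hZ j A)

/-- EXT: the class of an extension determines the middle term -/
def T_EXT : Prop := ∀ (C : Type 1) [Category.{0} C] [Abelian C] [HasExt.{w} C] (A G E E' : C)
  (i : A ⟶ E) (p : E ⟶ G) (i' : A ⟶ E') (p' : E' ⟶ G) (z : i ≫ p = 0) (z' : i' ≫ p' = 0)
  (h : (ShortComplex.mk i p z).ShortExact) (h' : (ShortComplex.mk i' p' z').ShortExact),
  h.extClass.{w} = h'.extClass.{w} → Nonempty (E ≅ E')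

/-- X16: extensions of two classes with finitely many isomorphism classes -/
def T_X16 : Prop := ∀ (C : Type 1) [Category.{0} C] [Abelian C] [HasExt.{w} C]
  (𝒮₁ 𝒮₃ 𝒮 : C → Prop), FinIso 𝒮₁ → FinIso 𝒮₃ →
  (∀ G A, 𝒮₃ G → 𝒮₁ A → Finite (Abelian.Ext.{w} G A 1)) →
  (∀ E, 𝒮 E → ∃ S : ShortComplex C, S.ShortExact ∧ 𝒮₁ S.X₁ ∧ 𝒮₃ S.X₃ ∧ Nonempty (E ≅ S.X₂)) →
  FinIso 𝒮

/-- C16: constructible objects of rank `≤ N` -/
def T_C16 : Prop := ∀ (X : Type) [TopologicalSpace X] [CompactSpace X] [T2Space X]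
  (C : Type 1) [Category.{0} C] [Abelian C] [HasExt.{w} C] (Z : ℕ → Set X)
  (hZ : ∀ j, IsClosed (Z j)) (hm : Monotone Z) (t : TopData.{w} X C hZ hm) (m : ℕ), ATI m Z →
  ∀ N : ℕ, FinIso (t.Con N)

/-! ### The derived category -/

/-- TRI: the top cohomology object -/
def T_TRI : Prop := ∀ (C : Type 1) [Category.{0} C] [Abelian C] [HasDerivedCategory.{1} C]
  (K : DerivedCategory C) (b : ℤ),
  (∀ i, b < i → IsZero ((DerivedCategory.homologyFunctor C i).obj K)) →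
  ∃ (L : DerivedCategory C) (G : C) (f : L ⟶ K) (g : K ⟶ (DerivedCategory.singleFunctor C b).obj G)
    (h : (DerivedCategory.singleFunctor C b).obj G ⟶ L⟦(1 : ℤ)⟧),
    Pretriangulated.Triangle.mk f g h ∈ Pretriangulated.distinguishedTriangles ∧
    Nonempty (G ≅ (DerivedCategory.homologyFunctor C b).obj K) ∧
    (∀ i, i < b → Nonempty ((DerivedCategory.homologyFunctor C i).obj L ≅
      (DerivedCategory.homologyFunctor C i).obj K)) ∧
    ∀ i, b ≤ i → IsZero ((DerivedCategory.homologyFunctor C i).obj L)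

/-- HM0: morphisms between shifted objects of the abelian category -/
def T_HM0 : Prop := ∀ (C : Type 1) [Category.{0} C] [Abelian C] [HasExt.{w} C]
  [HasDerivedCategory.{1} C] (A B : C), (∀ n, Finite (Abelian.Ext.{w} A B n)) → ∀ b c k : ℤ,
  Finite ((DerivedCategory.singleFunctor C b).obj A ⟶
    ((DerivedCategory.singleFunctor C c).obj B)⟦k⟧)

/-- HOM: finiteness of morphisms to a bounded complex -/
def T_HOM : Prop := ∀ (C : Type 1) [Category.{0} C] [Abelian C] [HasExt.{w} C]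
  [HasDerivedCategory.{1} C] (P : C → Prop), (∀ A B, Nonempty (A ≅ B) → P A → P B) →
  (∀ A, IsZero A → P A) → (∀ A B, P A → P B → ∀ n, Finite (Abelian.Ext.{w} A B n)) →
  ∀ (A : C), P A → ∀ (b a : ℤ) (n : ℕ) (L : DerivedCategory C),
  (∀ i, P ((DerivedCategory.homologyFunctor C i).obj L)) →
  (∀ i, i < a → IsZero ((DerivedCategory.homologyFunctor C i).obj L)) →
  (∀ i, a + n ≤ i → IsZero ((DerivedCategory.homologyFunctor C i).obj L)) → ∀ k : ℤ,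
  Finite ((DerivedCategory.singleFunctor C b).obj A ⟶ L⟦k⟧)

/-- CLD: finitely many isomorphism classes of complexes -/
def T_CLD : Prop := ∀ (C : Type 1) [Category.{0} C] [Abelian C] [HasExt.{w} C]
  [HasDerivedCategory.{1} C] (P : C → Prop), (∀ A B, Nonempty (A ≅ B) → P A → P B) →
  (∀ A, IsZero A → P A) → (∀ A B, P A → P B → ∀ n, Finite (Abelian.Ext.{w} A B n)) →
  FinIso P → ∀ (a : ℤ) (n : ℕ),
  FinIso (fun K : DerivedCategory C =>
    (∀ i, P ((DerivedCategory.homologyFunctor C i).obj K)) ∧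
    (∀ i, i < a → IsZero ((DerivedCategory.homologyFunctor C i).obj K)) ∧
    ∀ i, a + n ≤ i → IsZero ((DerivedCategory.homologyFunctor C i).obj K))

end Pool.Agent.H85.AU
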